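import Mathlib
import Pool.Agent.Helper594.LocalBreaker

namespace Pool.Agent.Results.MP_d36d9e_co.SubexpDegree

/-- For all large `n`, the second player has a Strong Draw on every finite `n`-uniform hypergraph
in which every point lies in at most `exp ((1/60) √(n / log n))` edges. -/
theorem result : ∃ n₀ : ℕ, ∀ n : ℕ, n₀ ≤ n → ∀ (V : Type) [Fintype V] [DecidableEq V]
    (H : Finset (Finset V)), (∀ e ∈ H, e.card = n) →
    (∀ v : V, ((H.filter (fun e => v ∈ e)).card : ℝ)
      ≤ Real.exp (1 / 60 * Real.sqrt (n / Real.log n))) →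
    ∃ W : Set (Finset V × Finset V), ((∅ : Finset V), (∅ : Finset V)) ∈ W ∧
      ∀ M B : Finset V, (M, B) ∈ W → ∀ x : V, x ∉ M → x ∉ B →
        (∀ e ∈ H, ¬ e ⊆ insert x M) ∧
        (insert x M ∪ B = Finset.univ ∨
          ∃ y : V, y ∉ insert x M ∧ y ∉ B ∧ (insert x M, insert y B) ∈ W) :=
  Pool.Agent.Helper594.LocalBreaker.main

end Pool.Agent.Results.MP_d36d9e_co.SubexpDegree
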